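import Pool.Agent.H6.NB.Targets
import Pool.Agent.H70.PW.Targets

set_option autoImplicit false

namespace Pool.Agent.H19.PW.CAP

open Finset Pool.Agent.H6.NB Pool.Agent.H70.OQ Pool.Agent.H70.PW

/-- A monotone numbering of `Ω`. -/
theorem numbering (Ω : Type) [Fintype Ω] (lev : Ω → ℕ) :
    ∃ o : Ω ≃ Fin (Fintype.card Ω), ∀ s' s, lev s' < lev s → o s' < o s := by
  let e := Fintype.equivFin Ω
  let f : Fin (Fintype.card Ω) → ℕ := fun i => lev (e.symm i)
  have hm := Tuple.monotone_sort f
  refine ⟨e.trans (Tuple.sort f).symm, ?_⟩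
  intro s' s hs
  by_contra hc
  rw [not_lt] at hc
  have h1 := hm hc
  simp only [Function.comp_apply, Equiv.trans_apply, Equiv.apply_symm_apply, f,
    Equiv.symm_apply_apply] at h1
  omega

theorem cpi' (h1 : T_CPI) (Ω : Type) [Fintype Ω] [DecidableEq Ω] (n : ℕ) (o : Ω ≃ Fin n) (L : ℕ)
    (z d : Ω → ℝ) (hL : 1 ≤ L) :
    ∏ s, (z s + d s) = (∑ I ∈ univ.filter (fun I : Finset Ω => I.card < L),
        (∏ s ∈ I, d s) * ∏ s ∈ Iᶜ, z s) +
      ∑ I ∈ powersetCard L univ, (∏ s ∈ I, d s) *
        ∏ s ∈ Iᶜ, (if ∃ s' ∈ I, o s' < o s then z s else z s + d s) := by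
  have key := h1 n L (fun i => z (o.symm i)) (fun i => d (o.symm i)) hL
  have e1 : ∏ s, (z s + d s) = ∏ i, (z (o.symm i) + d (o.symm i)) :=
    Fintype.prod_equiv o _ _ fun s => by simp
  have pI : ∀ (I : Finset Ω) (g : Fin n → ℝ), ∏ i ∈ I.map o.toEmbedding, g i =
      ∏ s ∈ I, g (o s) := fun I g => by rw [Finset.prod_map]; rfl
  have pC : ∀ (I : Finset Ω) (g : Fin n → ℝ), ∏ i ∈ (I.map o.toEmbedding)ᶜ, g i =
      ∏ s ∈ Iᶜ, g (o s) := fun I g => by
    symm
    apply Finset.prod_equiv o
    · intro i; simp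
    · intro i _; rfl
  have e2 : ∑ I ∈ univ.filter (fun I : Finset Ω => I.card < L),
        (∏ s ∈ I, d s) * ∏ s ∈ Iᶜ, z s =
      ∑ I ∈ univ.filter (fun I : Finset (Fin n) => I.card < L),
        (∏ s ∈ I, d (o.symm s)) * ∏ s ∈ Iᶜ, z (o.symm s) := by
    apply Finset.sum_equiv (Equiv.finsetCongr o)
    · intro I; simp [Equiv.finsetCongr]
    · intro I _
      have : (Equiv.finsetCongr o) I = I.map o.toEmbedding := rfl
      rw [this, pI, pC]
      simp
  have e3 : ∑ I ∈ powersetCard L (univ : Finset Ω), (∏ s ∈ I, d s) *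
        ∏ s ∈ Iᶜ, (if ∃ s' ∈ I, o s' < o s then z s else z s + d s) =
      ∑ I ∈ powersetCard L (univ : Finset (Fin n)), (∏ s ∈ I, d (o.symm s)) *
        ∏ s ∈ Iᶜ, (if ∃ s' ∈ I, s' < s then z (o.symm s) else z (o.symm s) + d (o.symm s)) := by
    apply Finset.sum_equiv (Equiv.finsetCongr o)
    · intro I; simp [Equiv.finsetCongr, mem_powersetCard]
    · intro I _
      have : (Equiv.finsetCongr o) I = I.map o.toEmbedding := rfl
      rw [this, pI, pC]
      congr 1
      · simp
      · apply Finset.prod_congr rfl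
        intro s _
        have hiff : (∃ s' ∈ I, o s' < o s) ↔ ∃ s' ∈ I.map o.toEmbedding, s' < o s := by
          constructor
          · rintro ⟨s', h1, h2⟩
            exact ⟨o s', Finset.mem_map_of_mem o.toEmbedding h1, h2⟩
          · rintro ⟨i, h1, h2⟩
            obtain ⟨s', h3, h4⟩ := Finset.mem_map.mp h1
            subst h4
            exact ⟨s', h3, h2⟩
        by_cases hc : ∃ s' ∈ I, o s' < o s
        · rw [if_pos hc, if_pos (hiff.mp hc), Equiv.symm_apply_apply]
        · rw [if_neg hc, if_neg (fun h => hc (hiff.mpr h)), Equiv.symm_apply_apply]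
  rw [e1, e2, e3]
  exact key

/-- Glue two partial families. -/
def glue {Ω : Type} [DecidableEq Ω] {T : Ω → Type} (I : Finset Ω)
    (P' : ∀ s : {s // s ∈ I}, T s.1) (Q : ∀ s : {s // s ∉ I}, T s.1) : ∀ s, T s :=
  fun s => if h : s ∈ I then P' ⟨s, h⟩ else Q ⟨s, h⟩

theorem sum_split {Ω : Type} [Fintype Ω] [DecidableEq Ω] {T : Ω → Type} [∀ s, Fintype (T s)]
    (I : Finset Ω) (Φ : (∀ s, T s) → ℝ) :
    ∑ P, Φ P = ∑ Q : ∀ s : {s // s ∉ I}, T s.1, ∑ P' : ∀ s : {s // s ∈ I}, T s.1,
      Φ (glue I P' Q) := by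
  rw [Finset.sum_comm, ← Fintype.sum_prod_type']
  exact Fintype.sum_equiv (Equiv.piEquivPiSubtypeProd (fun s => s ∈ I) T) _ _ fun P => by
    congr 1
    funext s
    simp [glue, Equiv.piEquivPiSubtypeProd]

theorem sum_prod_one (Ω : Type) [Fintype Ω] [DecidableEq Ω] (T : Ω → Type) [∀ s, Fintype (T s)]
    (m : ∀ s, T s → ℝ) (hm : ∀ s, ∑ p, m s p = 1) : ∑ P : ∀ s, T s, ∏ s, m s (P s) = 1 := by
  have e2 := Finset.prod_univ_sum (fun s : Ω => (univ : Finset (T s))) (fun s p => m s p)
  rw [Fintype.piFinset_univ] at e2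
  rw [← e2]
  exact Finset.prod_eq_one fun s _ => hm s

theorem m_eq (x y : ℝ) (b : Bool) (m : Bool → ℝ) (hx : m true = x) (hy : m false = y) :
    m b = y + bi b * (x - y) := by
  cases b <;> simp [bi, hx, hy]

theorem cap (h1 : T_CPI) (h2 : Pool.Agent.H6.NB.T_HYB) : T_CAP := by
  intro Ω _ _ T _ _ lev θ m F η L M hL hM hη hm hm1 hθ hI
  obtain ⟨o, ho⟩ := numbering Ω lev
  -- the weight outside `I`
  let ab : Finset Ω → Ω → Prop := fun I s => ∃ s' ∈ I, o s' < o s
  let θ' : Finset Ω → (∀ s, T s) → Ω → Bool := fun I P s =>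
    if s ∈ I ∨ ∃ s' ∈ I, o s' < o s then false else θ P s
  let W : Finset Ω → (∀ s, T s) → ℝ := fun I P => ∏ s ∈ Iᶜ, m (θ' I P s) s (P s)
  let R : Finset Ω → ℝ := fun I => ∑ P, (∏ s ∈ I, (m true s (P s) - m false s (P s))) *
    (W I P * ((∏ s ∈ I, bi (θ P s)) * F P))
  have hne : ∀ s, Nonempty (T s) := by
    intro s
    by_contra hc
    rw [not_nonempty_iff] at hc
    have := hm1 true s
    simp at this
  -- the identity
  have hid : ∀ P, (∏ s, m (θ P s) s (P s)) * F P =
      (∑ I ∈ univ.filter (fun I : Finset Ω => I.card < L),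
        ((∏ s ∈ I, (m true s (P s) - m false s (P s))) * ∏ s ∈ Iᶜ, m false s (P s)) *
        ((∏ s ∈ I, bi (θ P s)) * F P)) +
      ∑ I ∈ powersetCard L (univ : Finset Ω), (∏ s ∈ I, (m true s (P s) - m false s (P s))) *
        (W I P * ((∏ s ∈ I, bi (θ P s)) * F P)) := by
    intro P
    have e0 : ∀ s, m (θ P s) s (P s) =
        m false s (P s) + bi (θ P s) * (m true s (P s) - m false s (P s)) := fun s =>
      m_eq (m true s (P s)) (m false s (P s)) (θ P s) (fun b => m b s (P s)) rfl rfl
    have key := cpi' h1 Ω _ o L (fun s => m false s (P s))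
      (fun s => bi (θ P s) * (m true s (P s) - m false s (P s))) hL
    rw [Finset.prod_congr rfl fun s _ => e0 s, key, add_mul, Finset.sum_mul, Finset.sum_mul]
    congr 1
    · apply Finset.sum_congr rfl
      intro I _
      rw [Finset.prod_mul_distrib]
      ring
    · apply Finset.sum_congr rfl
      intro I _
      have e1 : ∏ s ∈ Iᶜ, (if ∃ s' ∈ I, o s' < o s then m false s (P s) else
          m false s (P s) + bi (θ P s) * (m true s (P s) - m false s (P s))) = W I P := by
        apply Finset.prod_congr rfl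
        intro s hs
        have hs' : s ∉ I := by simpa using hs
        rw [← e0 s]
        by_cases hc : ∃ s' ∈ I, o s' < o s
        · rw [if_pos hc]
          have : θ' I P s = false := if_pos (Or.inr hc)
          rw [this]
        · rw [if_neg hc]
          have : θ' I P s = θ P s := if_neg (not_or.mpr ⟨hs', hc⟩)
          rw [this]
      rw [e1, Finset.prod_mul_distrib]
      ring
  -- the remainder
  have hR : ∀ I : Finset Ω, I.card = L → |R I| ≤ (∏ s ∈ I, η s) * M := by
    intro I hIL
    let P0 : ∀ s : {s // s ∈ I}, T s.1 := fun s => (hne s.1).some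
    have hglI : ∀ (P' : ∀ s : {s // s ∈ I}, T s.1) Q (s : {s // s ∈ I}),
        glue I P' Q s.1 = P' s := by
      intro P' Q s
      simp [glue, s.2]
    have hWc : ∀ (P' : ∀ s : {s // s ∈ I}, T s.1) Q, W I (glue I P' Q) = W I (glue I P0 Q) := by
      intro P' Q
      apply Finset.prod_congr rfl
      intro s hs
      have hs' : s ∉ I := by simpa using hs
      have e1 : glue I P' Q s = glue I P0 Q s := by simp [glue, hs']
      rw [e1]
      by_cases hc : ∃ s' ∈ I, o s' < o s
      · have t1 : θ' I (glue I P' Q) s = false := if_pos (Or.inr hc)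
        have t2 : θ' I (glue I P0 Q) s = false := if_pos (Or.inr hc)
        rw [t1, t2]
      · have t1 : θ' I (glue I P' Q) s = θ (glue I P' Q) s := if_neg (not_or.mpr ⟨hs', hc⟩)
        have t2 : θ' I (glue I P0 Q) s = θ (glue I P0 Q) s := if_neg (not_or.mpr ⟨hs', hc⟩)
        rw [t1, t2, hθ (glue I P' Q) (glue I P0 Q) s]
        intro s' hlev
        have : s' ∉ I := fun hI' => hc ⟨s', hI', ho s' s hlev⟩
        simp [glue, this]
    have hW0 : ∀ P, 0 ≤ W I P := fun P => Finset.prod_nonneg fun s _ => hm _ _ _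
    have hprodI : ∀ (g : ∀ s, T s → ℝ) (P : ∀ s, T s), ∏ s ∈ I, g s (P s) =
        ∏ s : {s // s ∈ I}, g s.1 (P s.1) := fun g P =>
      (Finset.prod_coe_sort I fun s => g s (P s)).symm
    -- the total weight
    have htot : ∑ Q, W I (glue I P0 Q) = 1 := by
      have a1 := h2 Ω T lev (θ' I) m (fun _ => 1) (fun _ => 0) hm hm1
        (by
          intro P P' s hP
          simp only [θ']
          rw [hθ P P' s hP])
        (by
          intro P s
          simp only [mul_one]
          rw [Finset.sum_sub_distrib, hm1, hm1]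
          simp)
      simp only [mul_one, Finset.sum_const_zero] at a1
      have a2 := abs_nonpos_iff.mp a1
      rw [sum_prod_one Ω T (fun s => m false s) (hm1 false), sub_eq_zero] at a2
      have a3 : ∀ P : ∀ s, T s, ∏ s, m (θ' I P s) s (P s) =
          (∏ s : {s // s ∈ I}, m false s.1 (P s.1)) * W I P := by
        intro P
        rw [← Finset.prod_mul_prod_compl I]
        congr 1
        rw [← hprodI (fun s => m false s) P]
        apply Finset.prod_congr rfl
        intro s hs
        have : θ' I P s = false := if_pos (Or.inl hs)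
        rw [this]
      rw [Finset.sum_congr rfl fun P _ => a3 P, sum_split I] at a2
      rw [← a2]
      apply Finset.sum_congr rfl
      intro Q _
      have a4 : ∀ P' : ∀ s : {s // s ∈ I}, T s.1,
          (∏ s : {s // s ∈ I}, m false s.1 (glue I P' Q s.1)) * W I (glue I P' Q) =
            (∏ s : {s // s ∈ I}, m false s.1 (P' s)) * W I (glue I P0 Q) := by
        intro P'
        rw [hWc P' Q]
        congr 1
        apply Finset.prod_congr rfl
        intro s _
        rw [hglI]
      rw [Finset.sum_congr rfl fun P' _ => a4 P', ← Finset.sum_mul,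
        sum_prod_one {s // s ∈ I} (fun s => T s.1) (fun s => m false s.1) (fun s => hm1 false s.1),
        one_mul]
    -- the bound
    have hsplit : R I = ∑ Q, W I (glue I P0 Q) * ∑ P' : ∀ s : {s // s ∈ I}, T s.1,
        (∏ s : {s // s ∈ I}, (m true s.1 (P' s) - m false s.1 (P' s))) *
          ((∏ s ∈ I, bi (θ (glue I P' Q) s)) * F (glue I P' Q)) := by
      simp only [R]
      rw [sum_split I]
      apply Finset.sum_congr rfl
      intro Q _
      rw [Finset.mul_sum]
      apply Finset.sum_congr rfl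
      intro P' _
      rw [hWc P' Q, hprodI (fun s p => m true s p - m false s p) (glue I P' Q)]
      have : ∏ s : {s // s ∈ I}, (m true s.1 (glue I P' Q s.1) - m false s.1 (glue I P' Q s.1)) =
          ∏ s : {s // s ∈ I}, (m true s.1 (P' s) - m false s.1 (P' s)) := by
        apply Finset.prod_congr rfl
        intro s _
        rw [hglI]
      rw [this]
      ring
    rw [hsplit]
    refine (Finset.abs_sum_le_sum_abs _ _).trans ?_
    have hb : ∀ Q : ∀ s : {s // s ∉ I}, T s.1,
        |W I (glue I P0 Q) * ∑ P' : ∀ s : {s // s ∈ I}, T s.1,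
          (∏ s : {s // s ∈ I}, (m true s.1 (P' s) - m false s.1 (P' s))) *
            ((∏ s ∈ I, bi (θ (glue I P' Q) s)) * F (glue I P' Q))| ≤
          W I (glue I P0 Q) * ((∏ s ∈ I, η s) * M) := by
      intro Q
      rw [abs_mul, abs_of_nonneg (hW0 _)]
      apply mul_le_mul_of_nonneg_left _ (hW0 _)
      have hx := hI I (glue I P0 Q) hIL
      have hmix : ∀ P' : ∀ s : {s // s ∈ I}, T s.1, mixG I (glue I P0 Q) P' = glue I P' Q := by
        intro P'
        funext s
        by_cases hs : s ∈ I <;> simp [mixG, glue, hs]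
      simp only [hmix] at hx
      exact hx
    refine (Finset.sum_le_sum fun Q _ => hb Q).trans ?_
    rw [← Finset.sum_mul, htot, one_mul]
  -- conclusion
  have hfin : ∑ P, (∏ s, m (θ P s) s (P s)) * F P -
      ∑ I ∈ univ.filter (fun I : Finset Ω => I.card < L), ∑ P,
        ((∏ s ∈ I, (m true s (P s) - m false s (P s))) * ∏ s ∈ Iᶜ, m false s (P s)) *
          ((∏ s ∈ I, bi (θ P s)) * F P) = ∑ I ∈ powersetCard L (univ : Finset Ω), R I := by
    rw [Finset.sum_congr rfl fun P _ => hid P, Finset.sum_add_distrib, Finset.sum_comm]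
    rw [add_sub_cancel_left, Finset.sum_comm]
  rw [hfin, Finset.sum_mul]
  refine (Finset.abs_sum_le_sum_abs _ _).trans ?_
  apply Finset.sum_le_sum
  intro I hI'
  exact hR I (mem_powersetCard.mp hI').2

end Pool.Agent.H19.PW.CAP
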