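import Pool.Agent.H70.OQ.Targets
import Pool.Agent.H70.PW.Targets

set_option autoImplicit false

namespace Pool.Agent.H19.PW.LVS

open Finset Pool.Agent.H6.NB Pool.Agent.H70.OQ Pool.Agent.H70.PW

theorem ic_pos {p : Prop} (h : p) : ic p = 1 := by
  unfold ic; simp [h]

theorem ic_neg {p : Prop} (h : ¬ p) : ic p = 0 := by
  unfold ic; simp [h]

theorem lw_nonneg {A : Type} [Fintype A] {q : ℝ} (h0 : 0 ≤ q) (h1 : q ≤ 1) (l : A → Bool) :
    0 ≤ lw q l := by
  unfold lw
  apply Finset.prod_nonneg
  intro a _
  split_ifs <;> linarith

theorem sum_none (X : Type) [Fintype X] [DecidableEq X] (q : ℝ) (A : Finset X) :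
    ∑ l : X → Bool, lw q l * ic (∀ x ∈ A, l x = false) = (1 - q) ^ A.card := by
  have e1 : ∀ l : X → Bool, lw q l * ic (∀ x ∈ A, l x = false) =
      ∏ a, (if l a then (if a ∈ A then 0 else q) else 1 - q) := by
    intro l
    by_cases h : ∀ x ∈ A, l x = false
    · rw [ic_pos h, mul_one]
      unfold lw
      apply Finset.prod_congr rfl
      intro a _
      by_cases ha : a ∈ A
      · simp [h a ha]
      · simp [ha]
    · rw [ic_neg h, mul_zero]
      push Not at h
      obtain ⟨x, hx, hlx⟩ := h
      symm
      apply Finset.prod_eq_zero (mem_univ x)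
      have : l x = true := by simpa using hlx
      simp [this, hx]
  rw [Finset.sum_congr rfl fun l _ => e1 l]
  have e2 := Finset.prod_univ_sum (fun _ : X => (univ : Finset Bool))
    (fun a b => (if b then (if a ∈ A then (0 : ℝ) else q) else 1 - q))
  rw [Fintype.piFinset_univ] at e2
  rw [← e2]
  have e3 : ∀ a : X, (∑ b : Bool, (if b then (if a ∈ A then (0 : ℝ) else q) else 1 - q)) =
      if a ∈ A then 1 - q else 1 := by
    intro a
    rw [Fintype.sum_bool]
    by_cases ha : a ∈ A
    · simp [ha]
    · simp [ha]
  rw [Finset.prod_congr rfl fun a _ => e3 a]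
  rw [Finset.prod_ite]
  simp

theorem lvs (h1 : Pool.Agent.H70.OQ.T_LWS) : T_LVS := by
  intro X _ _ q R M G h0 hq1
  clear h1
  induction M generalizing R with
  | zero =>
    intro _
    have : ∀ l : X → Bool, lw q l * ic ((R.filter fun x => l x = true).card < 0) = 0 := by
      intro l
      rw [ic_neg (Nat.not_lt_zero _), mul_zero]
    rw [Finset.sum_congr rfl fun l _ => this l]
    simp
  | succ M ih =>
    intro hR
    have hG : G ≤ R.card := by
      have : G ≤ G * (M + 1) := Nat.le_mul_of_pos_right G (Nat.succ_pos M)
      omega
    obtain ⟨A, hAR, hA⟩ := Finset.exists_subset_card_eq hG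
    have hR' : G * M ≤ (R \ A).card := by
      rw [Finset.card_sdiff_of_subset hAR, hA]
      have : G * (M + 1) = G * M + G := by ring
      omega
    have key := ih (R \ A) hR'
    have e1 := sum_none X q A
    have hle : ∀ l : X → Bool, lw q l * ic ((R.filter fun x => l x = true).card < M + 1) ≤
        lw q l * ic (∀ x ∈ A, l x = false) +
          lw q l * ic (((R \ A).filter fun x => l x = true).card < M) := by
      intro l
      rw [← mul_add]
      apply mul_le_mul_of_nonneg_left _ (lw_nonneg h0 hq1 l)
      have n1 : ∀ p : Prop, 0 ≤ ic p := by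
        intro p
        by_cases hp : p
        · rw [ic_pos hp]; norm_num
        · rw [ic_neg hp]
      by_cases hc : (R.filter fun x => l x = true).card < M + 1
      · rw [ic_pos hc]
        by_cases hA' : ∀ x ∈ A, l x = false
        · rw [ic_pos hA']
          linarith [n1 (((R \ A).filter fun x => l x = true).card < M)]
        · have hc2 : ((R \ A).filter fun x => l x = true).card < M := by
            push Not at hA'
            obtain ⟨x, hx, hlx⟩ := hA'
            have hlx' : l x = true := by simpa using hlx
            have hss : (R \ A).filter (fun x => l x = true) ⊂ R.filter fun x => l x = true := by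
              rw [Finset.ssubset_iff_of_subset]
              · exact ⟨x, by simp [hAR hx, hlx'], by simp [hx]⟩
              · intro y hy
                simp only [mem_filter, mem_sdiff] at hy ⊢
                exact ⟨hy.1.1, hy.2⟩
            have := Finset.card_lt_card hss
            omega
          rw [ic_pos hc2]
          linarith [n1 (∀ x ∈ A, l x = false)]
      · rw [ic_neg hc]
        linarith [n1 (∀ x ∈ A, l x = false), n1 (((R \ A).filter fun x => l x = true).card < M)]
    calc ∑ l : X → Bool, lw q l * ic ((R.filter fun x => l x = true).card < M + 1)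
        ≤ ∑ l : X → Bool, (lw q l * ic (∀ x ∈ A, l x = false) +
          lw q l * ic (((R \ A).filter fun x => l x = true).card < M)) :=
          Finset.sum_le_sum fun l _ => hle l
      _ = (1 - q) ^ G + ∑ l : X → Bool,
          lw q l * ic (((R \ A).filter fun x => l x = true).card < M) := by
          rw [Finset.sum_add_distrib, e1, hA]
      _ ≤ (1 - q) ^ G + M * (1 - q) ^ G := by linarith
      _ = ((M + 1 : ℕ) : ℝ) * (1 - q) ^ G := by push_cast; ring

end Pool.Agent.H19.PW.LVS
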