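import Pool.Agent.H70.PW.Targets

set_option autoImplicit false

namespace Pool.Agent.H19.PW.MXB

open Finset Pool.Agent.H6.NB Pool.Agent.H70.OQ Pool.Agent.H70.PW

theorem er_nonneg (q N : ℕ) : 0 ≤ er q N := by
  unfold er
  have h1 : 0 ≤ 3 * (N : ℝ) ^ 2 / 2 ^ q := by positivity
  have h2 : eps2 q ≤ 4 := by
    unfold eps2
    rw [div_le_iff₀ (by positivity)]
    have : (0 : ℝ) ≤ q := Nat.cast_nonneg q
    linarith
  have h3 : 0 ≤ 1 - eps2 q / 4 := by linarith
  have h4 : 0 ≤ (1 - eps2 q / 4) ^ N := pow_nonneg h3 N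
  linarith

theorem etaB_nonneg (B : ℝ) (q N : ℕ) : 0 ≤ etaB B q N := by
  unfold etaB
  have := er_nonneg q N
  positivity

theorem mxb (h1 : T_TEN) (h2 : T_SIN) (h3 : T_TAP) : T_MXB := by
  intro ι _ _ q N B f hB hq her hL
  have key := h1 ι (fun s => Fin (N s) → VV (q s) → Bool)
    (fun s P => nuc true (q s) (N s) P - nuc false (q s) (N s) P)
    (fun s τ => Tau (q s) (N s) B τ) (fun s => etaB B (q s) (N s)) (fun P => bi (f P)) 1
    (fun s => etaB_nonneg B (q s) (N s)) zero_le_one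
    (fun s F M hM hF => h2 (q s) (N s) B F M (hq s) (her s) hB hM hF)
    (fun τ hτ => h3 ι q N B f hB hL τ hτ)
  simpa using key

end Pool.Agent.H19.PW.MXB
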